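import Pool.Agent.Helper27.FK.T
import Pool.Agent.Helper7.FR.Class
import Pool.Agent.Helper47.FK.Fra
import Pool.Agent.Helper7.FE.Fin2

/-!
# All admissible rate tuples

`TwoLetter r` (`Pool.Agent.Helper27.FK.Two`): there are `0 < x < 1`, a map `s : Fin n → Bool`,
positive integers `T i` and integers `a i` with `r i = x / T i` if `s i` is true and
`r i = (1 - x) / T i` if `s i` is false, such that the residue classes `a i mod T i` with `s i`
true form an exact cover of `ℤ`, and so do those with `s i` false.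
-/

namespace Pool.Agent.Results.MP_1d4ead_co.Complete

open Pool.Agent.Helper27.FK

/-- **Determination of the admissible rate tuples.** Let `r` be a tuple of `n` rates in `(0,1)`
with sum `1`, repetitions allowed, rational or irrational. It is admissible if and only if it is
of two-letter type or it belongs to the finite set of tuples with a common denominator
`L ≤ 2 (5 n ^ 2) ^ (2 n - 2)` that pass a finite check modulo `L`; and if the rates are pairwise
distinct and `n ≥ 3`, it is admissible if and only if the set of rates is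
`{2^i/(2^n-1) : i < n}`. -/
theorem result {n : ℕ} {r : Fin n → ℝ} (h0 : ∀ i, 0 < r i ∧ r i < 1) (hs : ∑ i, r i = 1) :
    ((∃ θ : Fin n → ℝ, (∀ i, 0 ≤ θ i ∧ θ i < 1) ∧
        ∀ m : ℤ, ∃! i, m ∈ Set.range fun j : ℤ => ⌈(j : ℝ) / r i - θ i / r i⌉) ↔
      TwoLetter r ∨ ∃ (L : ℕ) (p b : Fin n → ℕ), L ≤ 2 * (5 * n ^ 2) ^ (2 * n - 2) ∧
        (∀ i, r i = (p i : ℝ) / L) ∧ (∀ i, b i < L) ∧
        ∀ m < L, ∃! i, (m * p i + b i) % L < p i) ∧
    (Function.Injective r →
      ((∃ θ : Fin n → ℝ, (∀ i, 0 ≤ θ i ∧ θ i < 1) ∧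
          ∀ m : ℤ, ∃! i, m ∈ Set.range fun j : ℤ => ⌈(j : ℝ) / r i - θ i / r i⌉) ↔
        n = 2 ∨ (3 ≤ n ∧ Set.range r = {x : ℝ | ∃ i : ℕ, i < n ∧ x = 2 ^ i / (2 ^ n - 1)}))) := by
  refine ⟨?_, fun hinj => Pool.Agent.Helper7.FR.classification_of Pool.Agent.Helper27.FK.cosecThm
    (fun _ hn => Pool.Agent.Helper47.FK.admissible_fra (by omega)) h0 hs hinj⟩
  have h := Pool.Agent.Helper7.FE.classification2 h0 hs
  constructor
  · intro ha
    rcases h.1 ha with hT | ⟨L, p, hL, hr, b, hb, hc⟩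
    · exact Or.inl hT
    · exact Or.inr ⟨L, p, b, hL, hr, hb, hc⟩
  · rintro (hT | ⟨L, p, b, hL, hr, hb, hc⟩)
    · exact h.2 (Or.inl hT)
    · exact h.2 (Or.inr ⟨L, p, hL, hr, b, hb, hc⟩)

end Pool.Agent.Results.MP_1d4ead_co.Complete
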