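import Pool.Agent.Helper7.FE.Fin2

/-!
# Tuples with repeated rates: effective classification

`TwoLetter r` (`Pool.Agent.Helper27.FK.Two`): there are `0 < x < 1`, a map `s : Fin n → Bool`,
positive integers `T i` and integers `a i` with `r i = x / T i` if `s i` is true and
`r i = (1 - x) / T i` if `s i` is false, such that the residue classes `a i mod T i` with `s i`
true form an exact cover of `ℤ`, and so do those with `s i` false.
-/

namespace Pool.Agent.Results.MP_1d4ead_co.Effective

open Pool.Agent.Helper27.FK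

/-- A tuple of `n` rates (repetitions allowed, rational or irrational) is admissible if and only
if it is of two-letter type or it has a common denominator `L ≤ 2 (5 n ^ 2) ^ (2 n - 2)` and
passes a finite check modulo `L`: with `r i = p i / L` there are residues `b i` such that for
every `m < L` exactly one `i` satisfies `(m p i + b i) mod L < p i`. -/
theorem result {n : ℕ} {r : Fin n → ℝ} (h0 : ∀ i, 0 < r i ∧ r i < 1) (hs : ∑ i, r i = 1) :
    (∃ θ : Fin n → ℝ, (∀ i, 0 ≤ θ i ∧ θ i < 1) ∧
      ∀ m : ℤ, ∃! i, m ∈ Set.range fun j : ℤ => ⌈(j : ℝ) / r i - θ i / r i⌉) ↔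
    TwoLetter r ∨ ∃ (L : ℕ) (p b : Fin n → ℕ), L ≤ 2 * (5 * n ^ 2) ^ (2 * n - 2) ∧
      (∀ i, r i = (p i : ℝ) / L) ∧ (∀ i, b i < L) ∧
      ∀ m < L, ∃! i, (m * p i + b i) % L < p i := by
  have h := Pool.Agent.Helper7.FE.classification2 h0 hs
  constructor
  · intro ha
    rcases h.1 ha with hT | ⟨L, p, hL, hr, b, hb, hc⟩
    · exact Or.inl hT
    · exact Or.inr ⟨L, p, b, hL, hr, hb, hc⟩
  · rintro (hT | ⟨L, p, b, hL, hr, hb, hc⟩)
    · exact h.2 (Or.inl hT)
    · exact h.2 (Or.inr ⟨L, p, hL, hr, b, hb, hc⟩)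

end Pool.Agent.Results.MP_1d4ead_co.Effective
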