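import Pool.Agent.Helper27.FK.T
import Pool.Agent.Helper7.FR.Class
import Pool.Agent.Helper47.FK.Fra

/-!
# Fraenkel's conjecture

The admissible tuples of pairwise distinct rates are exactly the pairs and the Fraenkel tuples
`{2^i / (2^n - 1) : i < n}`, `n ≥ 3`.
-/

namespace Pool.Agent.Results.MP_1d4ead_co.Fraenkel

/-- **Fraenkel's conjecture.** Let `r` be a tuple of `n` pairwise distinct rates in `(0,1)` with
sum `1`. There are phases `θ_i ∈ [0,1)` for which the sets `{⌈j/r_i - θ_i/r_i⌉ : j ∈ ℤ}` form an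
exact cover of `ℤ` if and only if `n = 2`, or `n ≥ 3` and the set of rates is
`{2^i/(2^n-1) : i < n}`. -/
theorem result {n : ℕ} (r : Fin n → ℝ) (h0 : ∀ i, 0 < r i ∧ r i < 1) (hs : ∑ i, r i = 1)
    (hinj : Function.Injective r) :
    (∃ θ : Fin n → ℝ, (∀ i, 0 ≤ θ i ∧ θ i < 1) ∧
      ∀ m : ℤ, ∃! i, m ∈ Set.range fun j : ℤ => ⌈(j : ℝ) / r i - θ i / r i⌉) ↔
    n = 2 ∨ (3 ≤ n ∧ Set.range r = {x : ℝ | ∃ i : ℕ, i < n ∧ x = 2 ^ i / (2 ^ n - 1)}) :=
  Pool.Agent.Helper7.FR.classification_of Pool.Agent.Helper27.FK.cosecThm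
    (fun _ hn => Pool.Agent.Helper47.FK.admissible_fra (by omega)) h0 hs hinj

end Pool.Agent.Results.MP_1d4ead_co.Fraenkel
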