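import Pool.Agent.Helper27.FK.T
import Pool.Agent.Helper7.FR.DivMax3

/-!
# Repeated rates: every denominator which is maximal for divisibility carries a repeated rate
-/

namespace Pool.Agent.Results.MP_1d4ead_co.MaximalDenominators

/-- Let `n ≥ 3` and let `r` be an admissible tuple of `n` rates (repetitions allowed).  Then `r`
is Fraenkel's tuple, or some irrational rate is repeated, or all rates are rational and for every
denominator `D` of a rate which divides no larger denominator of a rate there are two equal rates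
with denominator `D`. -/
theorem result {n : ℕ} (hn : 3 ≤ n) (r : Fin n → ℝ) (h0 : ∀ i, 0 < r i ∧ r i < 1)
    (hs : ∑ i, r i = 1)
    (hadm : ∃ θ : Fin n → ℝ, (∀ i, 0 ≤ θ i ∧ θ i < 1) ∧
      ∀ m : ℤ, ∃! i, m ∈ Set.range fun j : ℤ => ⌈(j : ℝ) / r i - θ i / r i⌉) :
    (Function.Injective r ∧ Set.range r = {x : ℝ | ∃ i : ℕ, i < n ∧ x = 2 ^ i / (2 ^ n - 1)}) ∨
    (∃ i j, i ≠ j ∧ r i = r j ∧ Irrational (r i)) ∨
    (∃ s : Fin n → ℚ, (∀ i, (s i : ℝ) = r i) ∧
      ∀ k, (∀ l, (s k).den ∣ (s l).den → (s l).den = (s k).den) →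
        ∃ i j, i ≠ j ∧ s i = s j ∧ (s i).den = (s k).den) :=
  Pool.Agent.Helper7.FR.repeated_div_of Pool.Agent.Helper27.FK.cosecThm hn h0 hs hadm

end Pool.Agent.Results.MP_1d4ead_co.MaximalDenominators
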